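import Mathlib
import Pool.Agent.Lib.MP_f7662b_lc.Univ

set_option autoImplicit false

/-!
# Polynomial rings over fields are logically homogeneous, with definable orbits

The language is exactly the one of the problem: addition, multiplication, `0`, `1`, and a unary
function symbol for each element of `k`; there are no relation symbols and no parameters.
-/

namespace Pool.Agent.Results.MP_f7662b_lc.OrbitsDefinable

open MvPolynomial

universe u v

/-- The function symbols of the language of `k`-algebras, by number of arguments. -/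
inductive AlgFun (k : Type u) : ℕ → Type u
  | zero : AlgFun k 0
  | one : AlgFun k 0
  | smul (c : k) : AlgFun k 1
  | add : AlgFun k 2
  | mul : AlgFun k 2

/-- The language of `k`-algebras: `0`, `1`, `+`, `·`, and for each `c : k` the unary symbol of
multiplication by `c`. -/
def AlgLang (k : Type u) : FirstOrder.Language.{u, 0} := ⟨AlgFun k, fun _ => Empty⟩

/-- The interpretation of the function symbols in a `k`-algebra `H`. -/
def interp (k : Type u) [Field k] (H : Type v) [CommRing H] [Algebra k H] :
    ∀ {n : ℕ}, AlgFun k n → (Fin n → H) → H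
  | _, AlgFun.zero, _ => 0
  | _, AlgFun.one, _ => 1
  | _, AlgFun.smul c, x => c • x 0
  | _, AlgFun.add, x => x 0 + x 1
  | _, AlgFun.mul, x => x 0 * x 1

/-- A `k`-algebra as a first-order structure. -/
instance algStructure (k : Type u) [Field k] (H : Type v) [CommRing H] [Algebra k H] :
    (AlgLang k).Structure H where
  funMap f x := interp k H f x
  RelMap r := (r : Empty).elim

/-- Two tuples have the same type: they satisfy the same formulas (without parameters). -/
def SameType (k : Type u) [Field k] {H : Type v} [CommRing H] [Algebra k H] {m : ℕ}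
    (μ₁ μ₂ : Fin m → H) : Prop :=
  ∀ φ : (AlgLang k).Formula (Fin m), φ.Realize μ₁ ↔ φ.Realize μ₂

/-- Some automorphism of the `k`-algebra `H` maps the tuple `μ₁` to the tuple `μ₂`. -/
def SameOrbit (k : Type u) [Field k] {H : Type v} [CommRing H] [Algebra k H] {m : ℕ}
    (μ₁ μ₂ : Fin m → H) : Prop :=
  ∃ σ : H ≃ₐ[k] H, ∀ i, σ (μ₁ i) = μ₂ i

/-- Logical homogeneity. -/
def LogicallyHomogeneous (k : Type u) [Field k] (H : Type v) [CommRing H] [Algebra k H] : Prop :=
  ∀ (m : ℕ) (μ₁ μ₂ : Fin m → H), SameType k μ₁ μ₂ → SameOrbit k μ₁ μ₂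

section Translation

open FirstOrder FirstOrder.Language FirstOrder.Ring

variable {k : Type u} [Field k] {H : Type v} [CommRing H] [Algebra k H] [CompatibleRing H]

/-- A term of the language of rings with parameters in `k` is a term of the language of
`k`-algebras. -/
theorem exists_term {α β : Type} {r : ℕ} (c : Fin r → k)
    (t : Language.ring.Term ((α ⊕ Fin r) ⊕ β)) :
    ∃ t' : (AlgLang k).Term (α ⊕ β), ∀ (v : α → H) (x : β → H),
      t'.realize (Sum.elim v x) =
        t.realize (Sum.elim (Sum.elim v fun i => algebraMap k H (c i)) x) := by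
  induction t with
  | var a =>
    rcases a with (a | j) | b
    · exact ⟨Term.var (Sum.inl a), fun v x => rfl⟩
    · refine ⟨Term.func (L := AlgLang k) (AlgFun.smul (c j))
        ![Term.func (L := AlgLang k) AlgFun.one ![] ], fun v x => ?_⟩
      show c j • (1 : H) = algebraMap k H (c j)
      rw [Algebra.algebraMap_eq_smul_one]
    · exact ⟨Term.var (Sum.inr b), fun v x => rfl⟩
  | func f ts ih =>
    choose ts' hts' using ih
    cases f with
    | add =>
      refine ⟨Term.func (L := AlgLang k) AlgFun.add ![ts' 0, ts' 1], fun v x => ?_⟩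
      have h1 := hts' 0 v x
      have h2 := hts' 1 v x
      show (ts' 0).realize (Sum.elim v x) + (ts' 1).realize (Sum.elim v x) = _
      rw [h1, h2]
      exact (CompatibleRing.funMap_add (R := H)
        (fun i => (ts i).realize (Sum.elim (Sum.elim v fun i => algebraMap k H (c i)) x))).symm
    | mul =>
      refine ⟨Term.func (L := AlgLang k) AlgFun.mul ![ts' 0, ts' 1], fun v x => ?_⟩
      have h1 := hts' 0 v x
      have h2 := hts' 1 v x
      show (ts' 0).realize (Sum.elim v x) * (ts' 1).realize (Sum.elim v x) = _
      rw [h1, h2]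
      exact (CompatibleRing.funMap_mul (R := H)
        (fun i => (ts i).realize (Sum.elim (Sum.elim v fun i => algebraMap k H (c i)) x))).symm
    | neg =>
      refine ⟨Term.func (L := AlgLang k) (AlgFun.smul (-1)) ![ts' 0], fun v x => ?_⟩
      have h1 := hts' 0 v x
      show (-1 : k) • (ts' 0).realize (Sum.elim v x) = _
      rw [h1, neg_smul, one_smul]
      exact (CompatibleRing.funMap_neg (R := H)
        (fun i => (ts i).realize (Sum.elim (Sum.elim v fun i => algebraMap k H (c i)) x))).symm
    | zero =>
      refine ⟨Term.func (L := AlgLang k) AlgFun.zero ![], fun v x => ?_⟩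
      show (0 : H) = _
      exact (CompatibleRing.funMap_zero (R := H) _).symm
    | one =>
      refine ⟨Term.func (L := AlgLang k) AlgFun.one ![], fun v x => ?_⟩
      show (1 : H) = _
      exact (CompatibleRing.funMap_one (R := H) _).symm

/-- A formula of the language of rings with parameters in `k` is a formula of the language of
`k`-algebras. -/
theorem exists_formula {m r : ℕ} (c : Fin r → k) (φ : Language.ring.Formula (Fin m ⊕ Fin r)) :
    ∃ ψ : (AlgLang k).Formula (Fin m), ∀ v : Fin m → H,
      ψ.Realize v ↔ φ.Realize (Sum.elim v fun i => algebraMap k H (c i)) := by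
  choose tr htr using fun (n : ℕ) (t : Language.ring.Term ((Fin m ⊕ Fin r) ⊕ Fin n)) =>
    exists_term (H := H) c t
  let fr : ∀ n, Language.ring.Relations n → (AlgLang k).Relations n :=
    fun n R => (R : Empty).elim
  refine ⟨BoundedFormula.mapTermRel tr fr (fun _ => id) φ, fun v => ?_⟩
  unfold Formula.Realize
  exact BoundedFormula.realize_mapTermRel_id (fun n t x => htr n t v x)
    (fun n R => (R : Empty).elim)

end Translation

section Automorphisms

open FirstOrder FirstOrder.Language

variable {k : Type u} [Field k] {H : Type v} [CommRing H] [Algebra k H]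

/-- An automorphism of the `k`-algebra is an automorphism of the first-order structure. -/
def toEquiv (σ : H ≃ₐ[k] H) : FirstOrder.Language.Equiv (AlgLang k) H H where
  toEquiv := σ.toEquiv
  map_fun' {n} f x := by
    show σ (interp k H f x) = interp k H f (σ ∘ x)
    cases f <;> simp [interp]
  map_rel' {n} r x := (r : Empty).elim

/-- Formulas are invariant under automorphisms. -/
theorem realize_of_orbit {m : ℕ} {μ₁ μ₂ : Fin m → H} (h : SameOrbit k μ₁ μ₂)
    (φ : (AlgLang k).Formula (Fin m)) (hφ : φ.Realize μ₁) : φ.Realize μ₂ := by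
  obtain ⟨σ, hσ⟩ := h
  have h1 : μ₂ = toEquiv σ ∘ μ₁ := funext fun i => (hσ i).symm
  rw [h1, StrongHomClass.realize_formula]
  exact hφ

end Automorphisms

open FirstOrder FirstOrder.Language FirstOrder.Ring Pool.Agent.Lib.MP_f7662b_lc in
/-- The orbit of a tuple is defined by one formula. -/
theorem exists_defining (k : Type u) [Field k] (n m : ℕ) (a : Fin m → MvPolynomial (Fin n) k) :
    ∃ φ : (AlgLang k).Formula (Fin m), ∀ b : Fin m → MvPolynomial (Fin n) k,
      φ.Realize b ↔ SameOrbit k a b := by
  let _ := FirstOrder.Ring.compatibleRingOfRing (MvPolynomial (Fin n) k)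
  obtain ⟨P, hPd, hPX, hPs⟩ := exists_cond_univ k n
  -- the index type of the coefficients
  let ι := Σ i : Fin m, (a i).support
  let e : ι ≃ Fin (Fintype.card ι) := Fintype.equivFin ι
  let c0 : ι → k := fun p => coeff p.2.1 (a p.1)
  let c : Fin (Fintype.card ι) → k := fun j => c0 (e.symm j)
  have hdef : DD (H := MvPolynomial (Fin n) k) (fun v : Fin m ⊕ Fin (Fintype.card ι) →
      MvPolynomial (Fin n) k => ∃ y : Fin n → MvPolynomial (Fin n) k, P y ∧
        ∀ i : Fin m, v (Sum.inl i) = ∑ α : (a i).support, v (Sum.inr (e ⟨i, α⟩)) *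
          ∏ j, y j ^ (α.1 j)) := by
    apply DD.exFun (Fin n)
    apply DD.and
    · exact DD.subst hPd (fun j => TD.var _)
    · apply DD.allFin
      intro i
      apply DD.eq (TD.var _)
      apply TD.sum
      intro α
      apply (TD.var _).mul
      apply TD.prod
      intro j
      exact (TD.var _).pow _
  obtain ⟨φ, hφ⟩ := hdef
  obtain ⟨ψ, hψ⟩ := exists_formula (H := MvPolynomial (Fin n) k) c φ
  have hsum : ∀ (y : Fin n → MvPolynomial (Fin n) k) (i : Fin m),
      ∑ α : (a i).support, (algebraMap k (MvPolynomial (Fin n) k) (c (e ⟨i, α⟩))) *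
          ∏ j, y j ^ (α.1 j) = aeval y (a i) := by
    intro y i
    have h2 : ∀ α : (a i).support, c (e ⟨i, α⟩) = coeff α.1 (a i) := by
      intro α
      change c0 (e.symm (e ⟨i, α⟩)) = _
      rw [Equiv.symm_apply_apply]
    simp only [h2]
    rw [aeval_def, eval₂_eq']
    exact Finset.sum_coe_sort (a i).support (fun α => algebraMap k (MvPolynomial (Fin n) k)
      (coeff α (a i)) * ∏ j, y j ^ (α j))
  refine ⟨ψ, fun b => ⟨fun hb => ?_, fun hb => ?_⟩⟩
  · rw [hψ, hφ] at hb
    obtain ⟨y, hPy, hy⟩ := hb
    have hy' : ∀ i, b i = aeval y (a i) := by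
      intro i
      have := hy i
      simp only [Sum.elim_inl, Sum.elim_inr] at this
      rw [this, hsum y i]
    have hsurj : Function.Surjective
        (aeval y : MvPolynomial (Fin n) k →ₐ[k] MvPolynomial (Fin n) k) := by
      intro h
      have := hPs y hPy
        (aeval y : MvPolynomial (Fin n) k →ₐ[k] MvPolynomial (Fin n) k).toRingHom.range
        (fun r => ⟨C r, by simp⟩) (fun i => ⟨X i, by simp⟩) h
      exact this
    have hbij : Function.Bijective
        (aeval y : MvPolynomial (Fin n) k →ₐ[k] MvPolynomial (Fin n) k) :=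
      ⟨injective_of_surjective_endo
        (aeval y : MvPolynomial (Fin n) k →ₐ[k] MvPolynomial (Fin n) k).toRingHom hsurj, hsurj⟩
    exact ⟨AlgEquiv.ofBijective _ hbij, fun i => (hy' i).symm⟩
  · refine realize_of_orbit hb ψ ?_
    rw [hψ, hφ]
    refine ⟨X, hPX, fun i => ?_⟩
    simp only [Sum.elim_inl, Sum.elim_inr]
    rw [hsum X i, aeval_X_left_apply]

/-- For every field `k` and every `n` (including `0`), the polynomial ring `k[x_1, …, x_n]` is
logically homogeneous; moreover every orbit of its automorphism group on `m`-tuples is the set of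
realizations of one single formula of the language of `k`-algebras. -/
theorem result (k : Type u) [Field k] (n : ℕ) :
    LogicallyHomogeneous k (MvPolynomial (Fin n) k) ∧
      ∀ (m : ℕ) (μ : Fin m → MvPolynomial (Fin n) k), ∃ φ : (AlgLang k).Formula (Fin m),
        ∀ ν : Fin m → MvPolynomial (Fin n) k, φ.Realize ν ↔ SameOrbit k μ ν := by
  refine ⟨fun m μ₁ μ₂ h => ?_, fun m μ => exists_defining k n m μ⟩
  obtain ⟨φ, hφ⟩ := exists_defining k n m μ₁
  exact (hφ μ₂).1 ((h φ).1 ((hφ μ₁).2 ⟨AlgEquiv.refl, fun _ => rfl⟩))

end Pool.Agent.Results.MP_f7662b_lc.OrbitsDefinable
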